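import Pool.Agent.Y130.MM.Final
import Pool.Agent.Y134.MR.Defs

/-!
# The motivic Sato-Tate conjecture from isolated Frobenius eigenvalues

Let `M` be a motive (of André, or for absolute Hodge cycles), pure of ANY weight `w`, over a finitely
generated field of characteristic zero, `N` a second motive, and let `G` be the group of the points of
the motivic Galois group of `M ⊕ N` (and of the Tate motives) with values in an algebraic closure `K`
of `ℚ_ℓ`; the Galois group `Γ` maps to `G` by `ι`, and `q` is the character of the Lefschetz motive.
Let the realization of `M`, with coefficients in `K`, be a direct summand `V` of a sum of copies of a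
representation `T` of `G` with a form `B` with values in `1(-w)`, symmetric for even and alternating
for odd `w` (for example `T = V` with the polarization). Suppose (`IsolatedMotive`; `~` is the
equality up to a root of unity):

* `T` is the sum of subspaces `U c`, stable under a subgroup of finite index of `G` and irreducible
  over the algebraically closed field under all subgroups of finite index of `Γ`; each `U c` is
  orthogonal to all the others except one, `U (star c)`;
* each `U c` of dimension at least two contains ONE isolated eigenvector of ONE element `F` of `Γ`
  (which depends on `c`; for instance a Frobenius element): an eigenvector for an eigenvalue `a` which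
  is simple up to roots of unity, such that `a δ ~ β γ` for eigenvalues `β`, `γ`, `δ` of `F` on `T` only
  if `β ~ a` or `γ ~ a` or `a δ ~ q(F) ^ w`, and such that no power `(β / a) ^ n`, `n > 0`, for an
  eigenvalue `β` which is not `~ a`, is in the group `H F` of numbers;
* if `star c ≠ c`, the determinant of some `F` on `U c` is independent of the determinants on the other
  blocks and of `H F`.

`E i` are representations of `G` (the tannakian category of `N`) such that the eigenvalues of the
elements `F` on them are in the groups `H F`. Nothing else is supposed about `N`, about the image of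
the Galois group or about Hodge numbers and inertia groups.

**Theorem.**

* All Tate classes in all the representations `Hom (M ^ n, E i)` and their Tate twists are motivated
  (`TateMotivated`: a vector on which a subgroup of finite index of `Γ` acts through a power of `q` is
  a vector on which a subgroup of finite index of `G` acts through this power of `q`) if and only if
  this is true for the `E i`: the motivic Mumford-Tate conjecture holds for `M ⊕ N` if and only if it
  holds for `N`.
* In particular the motivic Mumford-Tate conjecture holds for `M` (if `q` has infinite order on `Γ`).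
* If moreover the Galois group maps onto all finite quotients of the motivic Galois group (which is
  always true, since a motive with a finite motivic Galois group is an Artin motive) then the Tate
  classes and the motivated classes in all `Hom (M ^ n, 1)` are the same over the given field, without
  an extension (`SameTateClasses`): the motivic Tate and the motivic Sato-Tate conjecture for `M`.

The theorem `TwoFrobeniusMotives` on motives of even weight deduces the hypotheses, for one block and
`star c = c`, from two Frobenius polynomials of odd degree over `ℚ_ℓ`.
-/

set_option autoImplicit false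

namespace Pool.Agent.Results.MP_d61fbb_ag.IsolatedMotives

open Pool.Agent.Y130 Pool.Agent.Y130.MT Pool.Agent.Y130.MM Pool.Agent.Y134.MR

section same

variable {K E : Type} [Field K] [AddCommGroup E] [Module K E] {Γ G : Type} [Group Γ] [Group G]
  {ι : Γ →* G} {q : G →* Kˣ} {σ : Representation K G E}

theorem same_of_motivated (hι : OntoQuotients ι) (h : TateMotivated ι q σ) :
    SameTateClasses ι q σ := by
  intro j w hw g
  obtain ⟨Δ, hΔ, h1⟩ := h j w ⟨⊤, inferInstance, fun s _ => hw s⟩
  obtain ⟨s, d, hd, rfl⟩ := hι Δ hΔ g
  rw [map_mul, Module.End.mul_apply, h1 d hd, map_smul, hw s, smul_smul, map_mul, mul_zpow,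
    Units.val_mul, mul_comm]

end same

section triv

variable {K V T : Type} [Field K] [CharZero K] [IsAlgClosed K] [AddCommGroup V] [Module K V]
  [AddCommGroup T] [Module K T] [FiniteDimensional K T] {Γ G : Type} [Group Γ] [Group G]
  {ι : Γ →* G} {q : G →* Kˣ} {w : ℕ} {ρ : Representation K G V} {τ : Representation K G T}
  {B : T →ₗ[K] T →ₗ[K] K} {C : Type} [Finite C] {U : C → Submodule K T} {star : C → C}
  {G₀ : Subgroup G} {H : Γ → Subgroup Kˣ}

theorem motivated_trivial (hV : SummandOfCopies τ ρ)
    (hM : IsolatedMotive ι q w τ B U star G₀ H) (hq : InfiniteOrder ι q) (n : ℕ) :
    TateMotivated ι q (homRep n ρ (Representation.trivial K G K)) := by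
  refine main_V hV hM (fun F β hβ => ?_) (fun j e he => ?_) n
  · obtain ⟨x, hx0, hx⟩ := hβ
    refine ⟨1, Subgroup.one_mem _, ?_⟩
    have h1 : x = β * x := hx
    rw [Units.val_one]
    exact mul_right_cancel₀ hx0 (by rw [← h1, one_mul])
  · obtain ⟨Δ, hΔ, h⟩ := he
    by_cases hj : j = 0
    · refine ⟨⊤, inferInstance, fun g _ => ?_⟩
      rw [hj, zpow_zero, Units.val_one, one_smul]
      rfl
    · obtain ⟨s, hs, hs1⟩ := hq j hj Δ hΔ
      have h1 : e = ((q (ι s) ^ j : Kˣ) : K) * e := h s hs
      have h2 : e = 0 := by
        by_contra h0
        apply hs1
        apply Units.ext
        rw [Units.val_one]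
        exact mul_right_cancel₀ h0 (by rw [← h1, one_mul])
      refine ⟨⊤, inferInstance, fun g _ => ?_⟩
      rw [h2, map_zero, smul_zero]

end triv

/-- **The motivic Sato-Tate conjecture from isolated Frobenius eigenvalues.** -/
theorem result {K : Type} [Field K] [CharZero K] [IsAlgClosed K]
    -- the Galois group, the motivic Galois group, and the character of the Lefschetz motive
    {Γ G : Type} [Group Γ] [Group G] (ι : Γ →* G) (q : G →* Kˣ)
    -- the motive `M` of weight `w`
    (w : ℕ) {V : Type} [AddCommGroup V] [Module K V] (ρ : Representation K G V)
    {T : Type} [AddCommGroup T] [Module K T] [FiniteDimensional K T] (τ : Representation K G T)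
    (hV : SummandOfCopies τ ρ) (B : T →ₗ[K] T →ₗ[K] K) {C : Type} [Finite C]
    (U : C → Submodule K T) (star : C → C) (G₀ : Subgroup G) (H : Γ → Subgroup Kˣ)
    (hM : IsolatedMotive ι q w τ B U star G₀ H)
    -- the representations in the tannakian category of `N`
    {I : Type} (E : I → Type) [∀ i, AddCommGroup (E i)] [∀ i, Module K (E i)]
    [∀ i, FiniteDimensional K (E i)] (σ : ∀ i, Representation K G (E i))
    (hN : ∀ i, EigenvaluesIn ι H (σ i)) :
    ((∀ n i, TateMotivated ι q (homRep n ρ (σ i))) ↔ ∀ i, TateMotivated ι q (σ i)) ∧
    (InfiniteOrder ι q → ∀ n, TateMotivated ι q (homRep n ρ (Representation.trivial K G K))) ∧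
    (InfiniteOrder ι q → OntoQuotients ι →
      ∀ n, SameTateClasses ι q (homRep n ρ (Representation.trivial K G K))) :=
  ⟨⟨fun h i => of_homRep (h 0 i), fun h n i => main_V hV hM (hN i) (h i) n⟩,
    fun hq n => motivated_trivial hV hM hq n,
    fun hq hι n => same_of_motivated hι (motivated_trivial hV hM hq n)⟩

end Pool.Agent.Results.MP_d61fbb_ag.IsolatedMotives
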