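import Pool.Agent.V11219.TowMain

/-!
# The motivic Sato–Tate conjecture for motives dominated by products

Let `W` be a Weil cohomology theory with algebraically closed coefficients (`ℓ`-adic cohomology with
coefficients in the algebraic closure of `ℚ_ℓ`) on a class of smooth projective varieties, and let `Γ` be a
group which acts on the cohomology of the varieties `X_i` and `Z` with the formal properties of the
Galois group `Γ_k` of a finitely generated field `k` of characteristic zero (`χ` is the action on the Tate
twists), or of the kernel `Γ_1` of its cyclotomic character (with `χ = 1`). Let `C` be a system of classes
(`ClassSystem`): for every variety `A` a space `C(A)` of cohomology classes containing the classes of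
algebraic cycles and stable under products, pull-backs and push-forwards. In this problem `C(A)` is the
space spanned by the motivated classes of André, or by the absolute Hodge classes. `TateIn χ C A` is the
statement that all classes of `A` on which a subgroup of finite index of `Γ` acts by a power of `χ` are in
`C(A)`; for `Γ = Γ_1`, `χ = 1`, that all classes of even degree which are invariant under a subgroup of
finite index of `Γ_1` are in `C(A)`: this is a statement on `G_{1,ℓ,k}`, which contains the Zariski
closure of the image of `Γ_1`.

Let `X_i` be finitely many varieties of odd dimension for which numerical and homological equivalence
coincide (for example curves, hypersurfaces, complete intersections), whose transcendental cohomology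
`T_i` (the orthogonal complement of the algebraic classes) is concentrated in the middle degree and
irreducible under all subgroups of finite index of `Γ`. Assume:

* **(distinct)** for `i ≠ j` the representations `T_i` and `T_j` of `Γ` are not isomorphic up to scalars;
* **(small defects)** let `N` be the set of the `g ∈ Γ` with `χ(g) = 1` which act trivially on the
  cohomology of `Z` and with `(g - 1) ^ 2 = 0` on **all** `T_j`. For every `i` some `g ∈ N` has defects
  on `T_i` without a common prime factor, or the defect two; here the defects of `g` are the rank of
  `g - 1` on `T_i` and the multiplicities of the nonzero eigenvalues of `(g - 1) (g' - 1)` on `T_i`, for
  `g' ∈ N`. (Or: the conjugates of some `g ∈ N` act irreducibly on `T_i` and the defects of all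
  elements of `N` have no common prime factor.)

The elements of `N` are, for instance, the elements of the inertia groups at the discrete valuations `v`
of `k` at which `Z` has good reduction and the `X_j` are curves with stable reduction, or hypersurfaces
whose reduction has ordinary double points; all `X_j` may have bad reduction at the same `v`. The
inertia groups (prime to `ℓ`) are contained in `Γ_1`.

Let `T` be a product of `Z` with arbitrary powers of the `X_i`. Then the following are **equivalent**:

1. for all varieties `B` dominated by `T` all potentially semi-invariant classes of `B` are in
   `C(B)`, and for **all** equivariant direct factors `M` of the cohomology of `B` of even degree (an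
   equivariant map `s` from `M` to the cohomology and a map `f` with `f ∘ s = 1`) the elements of `M` which are
   invariant under a subgroup of finite index are in `f(C(B))`;
2. all potentially semi-invariant classes of `Z` are in `C(Z)`.

So the motivic Sato–Tate conjecture, which is known to be equivalent to the motivic Tate conjecture, for
the motives which are direct factors of the motives of varieties dominated by products of powers of
`Z` and of the `X_i` (for example abelian varieties which are quotients of products of Jacobians, if the
`X_i` are curves) is reduced to the powers of `Z`, about which nothing is assumed.

Proof. By the theory of extremal elements of Lie algebras (see `MP_0d42ed_ag.SemistableProducts`) and the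
first fundamental theorem a potentially semi-invariant class on the product of a power of `X_i` with `A`
is a combination of products of algebraic classes of the power with potentially semi-invariant classes
of `A`. If `x` is a potentially semi-invariant class of `B` and `g : T → B` is dominant, then `g^* x` belongs
to `C(T)`, and `x = g_*(a g^* x)` for an algebraic class `a`.
-/

universe u

namespace Pool.Agent.Results.MP_d61fbb_ag.SemistableProducts

open Pool.Agent.H914 Pool.Agent.H281R3.HT Pool.Agent.TH125.Gal Pool.Agent.V11219.Min
  Pool.Agent.V11219.Cls Pool.Agent.V11219.Dm

/-- **Potentially invariant classes of motives dominated by products.** -/
theorem result {k : Type u} [Field k] {𝒱 : VarClass k} {ops : CycleOps 𝒱}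
    (W : WeilCohomology.{u, 0} ops) [IsAlgClosed W.K] {Γ : Type} [Group Γ] (χ : CharOf W Γ)
    (C : Classes W) (hC : ClassSystem W C)
    {ι : Type} [Finite ι] (X : ι → GVar W Γ) (Z : GVar W Γ) (h : Family χ X Z)
    (S : Set ι) (T : GVar W Γ) (hT : Tow X Z S T) :
    (∀ B, Dominates T B → TateIn χ C B ∧ FactorsTate χ C B) ↔ TateIn χ C Z :=
  all_factors hC h hT

end Pool.Agent.Results.MP_d61fbb_ag.SemistableProducts
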